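import Mathlib
import Pool.Agent.H964.CW.Stm3

/-! # Project CW: TRJ, translations and convexity -/

set_option autoImplicit false

open MeasureTheory ProbabilityTheory Filter Finset

namespace Pool.Agent.H120.CW

open Pool.Agent.H964.QC Pool.Agent.H964.CW

theorem sum_pos_of {V : Type} [Fintype V] {w f : V → ℝ} (hw : ∀ z, 0 ≤ w z) (hw1 : ∑ z, w z = 1)
    (hf : ∀ z, 0 < f z) : 0 < ∑ z, w z * f z := by
  obtain ⟨y, hy⟩ : ∃ y, w y ≠ 0 := by
    by_contra hcon
    push Not at hcon
    rw [sum_eq_zero fun y _ => hcon y] at hw1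
    exact zero_ne_one hw1
  refine sum_pos' (fun z _ => mul_nonneg (hw z) (hf z).le) ⟨y, mem_univ y, ?_⟩
  exact mul_pos (lt_of_le_of_ne (hw y) (Ne.symm hy)) (hf y)

theorem Zr_pos {V : Type} [Fintype V] [DecidableEq V] {C0 : ℝ} {N0 : ℕ} (W : Wlk V C0 N0)
    {x : ℕ → V → ℝ} (hx : ∀ n v, -1 < x n v) : ∀ (n : ℕ) (y : V), 0 < Zr W x n y := by
  intro n
  induction n with
  | zero =>
    intro y
    rw [Zr]
    exact one_pos
  | succ n ih =>
    intro y
    rw [Zr]
    refine sum_pos_of (fun z => W.K_nonneg 1 y z) (W.K_sum 1 y) fun z => ?_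
    have h1 := hx (n + 1) z
    exact mul_pos (by linarith) (ih z)

theorem log_sq_le {z : ℝ} (hz : 1 ≤ z) : (Real.log z) ^ 2 ≤ z := by
  have hz0 : 0 < z := by linarith
  have h0 : 0 ≤ Real.log z := Real.log_nonneg hz
  have hs : 0 < Real.sqrt z := Real.sqrt_pos.2 hz0
  have h1 : Real.log z ≤ Real.sqrt z := by
    have h2 : Real.log z = 2 * Real.log (Real.sqrt z) := by
      conv_lhs => rw [← Real.sq_sqrt hz0.le]
      rw [Real.log_pow]
      norm_num
    have h3 : Real.log (Real.sqrt z / 2) ≤ Real.sqrt z / 2 - 1 :=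
      Real.log_le_sub_one_of_pos (by positivity)
    rw [Real.log_div hs.ne' two_ne_zero] at h3
    have h4 : Real.log 2 < 0.6931471808 := Real.log_two_lt_d9
    rw [h2]
    linarith
  calc (Real.log z) ^ 2 ≤ (Real.sqrt z) ^ 2 := pow_le_pow_left₀ h0 h1 2
    _ = z := Real.sq_sqrt hz0.le

theorem sq_sum_le {V : Type} [Fintype V] {w a : V → ℝ} (hw : ∀ z, 0 ≤ w z) (hw1 : ∑ z, w z = 1) :
    (∑ z, w z * a z) ^ 2 ≤ ∑ z, w z * (a z) ^ 2 := by
  obtain ⟨m, hm⟩ : ∃ m, m = ∑ z, w z * a z := ⟨_, rfl⟩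
  have h1 : 0 ≤ ∑ z, w z * (a z - m) ^ 2 := sum_nonneg fun z _ => mul_nonneg (hw z) (sq_nonneg _)
  have h2 : ∑ z, w z * (a z - m) ^ 2 = ∑ z, w z * (a z) ^ 2 - 2 * m * ∑ z, w z * a z +
      m ^ 2 * ∑ z, w z := by
    rw [mul_sum, mul_sum, ← sum_sub_distrib, ← sum_add_distrib]
    refine sum_congr rfl fun z _ => ?_
    ring
  rw [h2, hw1, ← hm] at h1
  rw [← hm]
  linarith

theorem t_TRJ : S_TRJ := by
  intro C0 N0 M _ W hT
  refine ⟨?_, ?_, ?_⟩
  · intro x T
    induction T with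
    | zero =>
      intro v x0
      rw [Zr, Zr]
    | succ T ih =>
      intro v x0
      rw [Zr, Zr]
      symm
      refine Fintype.sum_equiv (Equiv.addRight x0) _ _ fun z => ?_
      rw [Equiv.coe_addRight, ih z x0, hT.K_eq, hT.K_eq, Prod.fst_add, Prod.snd_add, Prod.fst_add,
        Prod.snd_add, add_sub_add_right_eq_sub, add_sub_add_right_eq_sub]
  · intro Ω _ P _ s2 κ η x0 hη
    obtain ⟨h1, h2⟩ := hη
    have hinj : Function.Injective (fun i : ℕ × (ZMod M × ZMod M) => (i.1, i.2 + x0)) := by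
      rintro ⟨a, b⟩ ⟨c, d⟩ h
      have h3 := congrArg Prod.fst h
      have h4 := congrArg Prod.snd h
      exact Prod.ext h3 (add_right_cancel h4)
    exact ⟨{ meas := fun n v => h1.meas n (v + x0)
             indep := h1.indep.precomp hinj
             gt := fun n v ω => h1.gt n (v + x0) ω
             int4 := fun n v => h1.int4 n (v + x0)
             m1 := fun n v => h1.m1 n (v + x0)
             m2 := fun n v => h1.m2 n (v + x0)
             m3 := fun n v => h1.m3 n (v + x0)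
             m4 := fun n v => h1.m4 n (v + x0) }, fun n v => h2 n (v + x0)⟩
  · intro x n w hx hw hw1
    unfold lgZ
    have hZ := Zr_pos W hx n
    obtain ⟨z, hz⟩ : ∃ z, z = ∑ y, w y * Zr W x n y := ⟨_, rfl⟩
    have hz0 : 0 < z := by
      rw [hz]
      exact sum_pos_of hw hw1 hZ
    have hs0 : 0 ≤ ∑ y, w y * (Real.log (Zr W x n y)) ^ 2 :=
      sum_nonneg fun y _ => mul_nonneg (hw y) (sq_nonneg _)
    rw [← hz]
    rcases le_or_gt 1 z with h1 | h1
    · have := log_sq_le h1
      linarith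
    · have h2 : Real.log z ≤ 0 := Real.log_nonpos hz0.le h1.le
      have h3 : ∑ y, w y * Real.log (Zr W x n y) ≤ Real.log z := by
        have h4 := strictConcaveOn_log_Ioi.concaveOn.le_map_sum (t := univ) (w := w)
          (p := fun y => Zr W x n y) (fun y _ => hw y) hw1 (fun y _ => hZ y)
        rw [hz]
        exact h4
      have h4 : (Real.log z) ^ 2 ≤ (∑ y, w y * Real.log (Zr W x n y)) ^ 2 := by
        rw [← neg_sq, ← neg_sq (∑ y, w y * Real.log (Zr W x n y))]
        exact pow_le_pow_left₀ (by linarith) (by linarith) 2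
      have h5 := sq_sum_le (a := fun y => Real.log (Zr W x n y)) hw hw1
      linarith

end Pool.Agent.H120.CW
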